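import Pool.Agent.Helper81.URE.Red
import Pool.Agent.Helper92.RE.LinC
import Pool.Agent.Helper92.RE.Ram

/-!
# The letters of the regular expression of the reduction, for nondeterministic machines
-/

namespace Pool.Agent.Helper81.URE

open Pool.Agent.Helper65.LinSpace Pool.Agent.Helper78.Mpc Pool.Agent.Helper81.RP
open Pool.Agent.Helper1.TE (NTM USPACE)
open Pool.Agent.Helper92.RE (hist IsHist hom blk nonmult word univ_iff mem_hist bad noacc pre enc Loc
  loc_const loc_cons loc_append loc_range eh eh_plus eh_comp hPre hPre_length eh_pre tauL tauL_lt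
  loc_bad loc_noacc anyS allL LD)
open RegularExpression (zero epsilon char plus comp)

variable {k : ℕ} {M : NTM k}

/-- The letters of the first configuration. -/
def mkL (M : NTM k) (i : ℕ) : Letter M where
  c := ⟨M.start, none, fun _ => M.blank, none⟩
  d := { first := decide (i % 2 = 1)
         last := decide (i / 2 % 2 = 1)
         a := if i / 8 = 0 then none else some (decide (i / 8 = 2))
         inp := decide (i % 2 = 1)
         s := fun _ => M.blank
         hd := fun _ => decide (i / 4 % 2 = 1) }

theorem letter_init (w : List Bool) (o : ℕ → ℕ) (p : ℕ) :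
    letterOf w (o w.length) M.init none (p - 1) =
      mkL M (tauL o w.length p (lett w[p - 1 - 1]?)) := by
  have hx : lett w[p - 1 - 1]? ≤ 2 := by
    rcases w[p - 1 - 1]? with _ | _ | _ <;> simp [lett]
  have hcap : ifz (lt01 2 (lett w[p - 1 - 1]?)) (lett w[p - 1 - 1]?) 0 = lett w[p - 1 - 1]? := by
    unfold lt01
    rw [if_neg (by omega), ifz_zero]
  have h1 : tauL o w.length p (lett w[p - 1 - 1]?) % 2 = eq01 (p - 1) 0 := by
    unfold tauL eq01
    split_ifs <;> omega
  have h2 : tauL o w.length p (lett w[p - 1 - 1]?) / 2 % 2 = eq01 (p - 1) (w.length + 1) := by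
    unfold tauL eq01
    split_ifs <;> omega
  have h3 : tauL o w.length p (lett w[p - 1 - 1]?) / 4 % 2 = eq01 (p - 1) (o w.length) := by
    unfold tauL eq01
    split_ifs <;> omega
  have h4 : tauL o w.length p (lett w[p - 1 - 1]?) / 8 = ifz (p - 1) 0 (lett w[p - 1 - 1]?) := by
    unfold tauL
    rw [hcap]
    unfold eq01
    split_ifs <;> omega
  unfold mkL
  rw [h1, h2, h3, h4]
  have e : ∀ x y : ℕ, decide (eq01 x y = 1) = decide (x = y) := by
    intro x y
    unfold eq01
    by_cases h : x = y
    · simp [h]
    · simp [h]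
  simp only [e]
  show (⟨⟨M.start, none, fun _ => M.blank, none⟩, ⟨decide (p - 1 = 0),
    decide (p - 1 = w.length + 1), inputSym w (p - 1), decide (0 = p - 1), fun _ => M.blank,
    fun _ => decide ((0 : ℤ) = ((p - 1 : ℕ) : ℤ) - (o w.length : ℕ))⟩⟩ : Letter M) = _
  have e1 : decide (0 = p - 1) = decide (p - 1 = 0) := by
    by_cases h : p - 1 = 0
    · simp [h]
    · rw [decide_eq_false h, decide_eq_false (Ne.symm h)]
  have e2 : decide ((0 : ℤ) = ((p - 1 : ℕ) : ℤ) - (o w.length : ℕ)) =
      decide (p - 1 = o w.length) := by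
    by_cases h : p - 1 = o w.length
    · rw [decide_eq_true h, h]
      simp
    · rw [decide_eq_false h, decide_eq_false (by omega)]
  have e3 : inputSym w (p - 1) = if ifz (p - 1) 0 (lett w[p - 1 - 1]?) = 0 then none else
      some (decide (ifz (p - 1) 0 (lett w[p - 1 - 1]?) = 2)) := by
    unfold inputSym ifz
    by_cases h : p - 1 = 0
    · simp [h]
    · rw [if_neg h, if_neg h]
      rcases w[p - 1 - 1]? with _ | _ | _ <;> simp [lett]
  rw [e1, e2, e3]

theorem initW_range (w : List Bool) (o : ℕ) :
    initW M w o = (List.range (2 * o + 2)).map fun p => letterOf w o M.init none (p - 1) := by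
  rw [List.range_succ_eq_map, List.map_cons, List.map_map]
  unfold initW cfgW
  rfl

/-- **The letters of the code of the regular expression.** -/
theorem loc_redB {b : ℕ} (code : Letter M → Fin b → Bool) {o : ℕ → ℕ} (ho : LS o) {a : ℕ}
    (ha : ∀ n, o n ≤ a * (n + 1)) : Loc fun w => enc (redB code w (o w.length)) := by
  have e1 : (fun w : List Bool => enc (redB code w (o w.length))) = fun w =>
      true :: false :: false :: ((true :: false :: false ::
        ((((List.range (2 * o w.length + 2)).flatMap fun p =>
          ((List.range 24).map fun i => hPre (code (mkL M i))).getD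
            (tauL o w.length p (lett w[p - 1 - 1]?)) []) ++ enc zero) ++
          (true :: false :: false :: (eh (bad (2 * o w.length + 1) (lBad code)) ++
            eh (noacc (2 * o w.length + 1) (lAcc code) (lOth code)))))) ++ enc (nonmult b)) := by
    funext w
    show true :: false :: false :: (eh (histB code w (o w.length)) ++ enc (nonmult b)) = _
    unfold histB hist
    rw [eh_plus, eh_plus, eh_pre, initW_range, List.map_map, List.flatMap_map]
    have h2 : ∀ p : ℕ, ((List.range 24).map fun i => hPre (code (mkL M i))).getD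
        (tauL o w.length p (lett w[p - 1 - 1]?)) [] =
        hPre (code (letterOf w (o w.length) M.init none (p - 1))) := by
      intro p
      have h3 := tauL_lt o w.length p (lett w[p - 1 - 1]?)
      rw [List.getD_eq_getElem _ _ (by simpa using h3), List.getElem_map, List.getElem_range,
        letter_init]
    simp only [h2]
    rfl
  rw [e1]
  have h1 : Loc fun w => (List.range (2 * o w.length + 2)).flatMap fun p =>
      ((List.range 24).map fun i => hPre (code (mkL M i))).getD
        (tauL o w.length p (lett w[p - 1 - 1]?)) [] := by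
    refine loc_range (g := fun n => 2 * o n + 2) (by
      intro v hv
      obtain ⟨i, _, rfl⟩ := List.mem_map.1 hv
      exact hPre_length _) (by fun_prop) (a := 2 * a + 2) (fun n => ?_)
      (p := fun _ p => p - 1 - 1) (by fun_prop) (τ := tauL o) ?_ (fun n j x _ => ?_) fun w => rfl
    · have := ha n
      calc 2 * o n + 2 ≤ 2 * (a * (n + 1)) + 2 * (n + 1) := by omega
        _ = (2 * a + 2) * (n + 1) := by ring
    · unfold tauL
      have e2 : LS (fun z : ℕ × ℕ × ℕ => o z.1) := LS.comp (g := o) ho (by fun_prop)
      fun_prop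
    · rw [List.length_map, List.length_range]
      exact tauL_lt _ _ _ _
  have hm : ∀ n, 2 * o n + 1 ≤ (2 * a + 1) * (n + 1) := by
    intro n
    have := ha n
    calc 2 * o n + 1 ≤ 2 * (a * (n + 1)) + 1 * (n + 1) := by omega
      _ = (2 * a + 1) * (n + 1) := by ring
  have h2 := loc_bad (m := fun n => 2 * o n + 1) (by fun_prop) hm (lBad code)
  have h3 := loc_noacc (m := fun n => 2 * o n + 1) (by fun_prop) hm (lAcc code) (lOth code)
  repeat' first
    | exact h1
    | exact h2
    | exact h3
    | exact loc_const _
    | refine loc_cons _ ?_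
    | refine loc_append ?_ ?_

/-- The regular expression is long. -/
theorem le_redB {b : ℕ} (code : Letter M → Fin b → Bool) (w : List Bool) (o : ℕ) :
    o ≤ (enc (redB code w o)).length := by
  have h1 : (enc (redB code w o)).length = 3 + ((3 + ((((initW M w o).map code).flatMap hPre ++
      enc zero).length + (3 + ((eh (bad (2 * o + 1) (lBad code))).length +
        (eh (noacc (2 * o + 1) (lAcc code) (lOth code))).length)))) + (enc (nonmult b)).length) := by
    show (true :: false :: false :: (eh (histB code w o) ++ enc (nonmult b))).length = _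
    unfold histB hist
    rw [eh_plus, eh_plus, eh_pre]
    simp only [List.length_cons, List.length_append]
    ring
  have h2 : ((initW M w o).map code).length ≤
      (((initW M w o).map code).flatMap hPre).length := by
    generalize (initW M w o).map code = l
    induction l with
    | nil => exact Nat.zero_le _
    | cons a l ih =>
      rw [List.flatMap_cons, List.length_append, List.length_cons]
      have : 1 ≤ (hPre a).length := by
        rw [hPre_length]
        omega
      omega
  have h3 : ((initW M w o).map code).length = 2 * o + 2 := by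
    rw [List.length_map, initW_range, List.length_map, List.length_range]
  rw [List.length_append] at h1
  omega

/-- The statement about histories. -/
def HistIff : Prop := ∀ {k : ℕ} {M : NTM k} {w : List Bool} {o : ℕ},
  (∀ c, M.Reach w c → ∀ i, |c.head i| ≤ (o : ℤ)) → w.length + 1 < 2 * o + 1 →
    ((∃ u : List (Letter M), IsHistL w o u) ↔ M.Accepts w)

/-- **The reduction of a language in nondeterministic linear space**, from the statement about
histories. -/
theorem red_of (hI : HistIff) {L : Set (List Bool)} {c : ℝ}
    (hL : ∀ w : List Bool, (w ∈ L ↔ M.Accepts w) ∧ M.Within w (c * ((w.length : ℝ) + 1))) :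
    ∃ (f : List Bool → RegularExpression Bool) (b : ℕ) (D : LD), D.Is (fun w => enc (f w)) ∧
      (∀ w, w.length ≤ (enc (f w)).length ∧ (enc (f w)).length ≤ b * (w.length + 1)) ∧
      (∀ w, (f w).matches' = ⊤ ↔ w ∉ L) ∧ Loc (fun w => enc (f w)) ∧
      LinComp (fun w => enc (f w)) := by
  obtain ⟨b₀, code, hb₀, hcode⟩ := exists_code M
  set a := ⌈c⌉₊ with ha
  obtain ⟨f, hfdef⟩ : ∃ f : List Bool → RegularExpression Bool,
      f = fun w => redB code w ((a + 1) * (w.length + 1)) := ⟨_, rfl⟩
  have hf : ∀ w, (f w).matches' = ⊤ ↔ w ∉ L := fun w => by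
    rw [hfdef]
    have ho : w.length + 1 ≤ (a + 1) * (w.length + 1) := Nat.le_mul_of_pos_left _ (Nat.succ_pos a)
    show (redB code w ((a + 1) * (w.length + 1))).matches' = ⊤ ↔ w ∉ L
    rw [redB_iff hb₀ hcode (by omega), not_iff_not, hI (fun d hd i => ?_) (by omega), (hL w).1]
    have h1 := (hL w).2 d hd i
    have h2 : c * ((w.length : ℝ) + 1) ≤ ((a : ℝ) + 1) * ((w.length : ℝ) + 1) := by
      refine mul_le_mul_of_nonneg_right ?_ (by positivity)
      exact (Nat.le_ceil c).trans (by rw [← ha]; linarith)
    have h3 : ((|d.head i| : ℤ) : ℝ) ≤ (((a + 1) * (w.length + 1) : ℕ) : ℝ) := by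
      push_cast
      exact h1.trans h2
    exact_mod_cast h3
  have hloc : Loc fun w => enc (f w) := by
    rw [hfdef]
    exact loc_redB code (o := fun n => (a + 1) * (n + 1)) (by fun_prop) (a := a + 1)
      fun n => le_rfl
  have hle : ∀ w : List Bool, w.length ≤ (enc (f w)).length := fun w => by
    rw [hfdef]
    refine le_trans ?_ (le_redB code w ((a + 1) * (w.length + 1)))
    nlinarith [Nat.zero_le a, Nat.zero_le w.length]
  obtain ⟨D, hD, b, hlen⟩ := hloc.exists_ld
  exact ⟨f, b, D, hD, fun w => ⟨hle w, hlen w⟩, hf, hloc, hloc.linComp⟩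

/-- The reduction for all languages in nondeterministic linear space: the machines use linear space on
all inputs. -/
def RedNtm : Prop := ∀ (L : Set (List Bool)) (k : ℕ) (M : NTM k) (c : ℝ),
  (∀ w : List Bool, (w ∈ L ↔ M.Accepts w) ∧ M.Within w (c * ((w.length : ℝ) + 1))) →
    ∃ (f : List Bool → RegularExpression Bool) (b : ℕ) (D : LD), D.Is (fun w => enc (f w)) ∧
      (∀ w, w.length ≤ (enc (f w)).length ∧ (enc (f w)).length ≤ b * (w.length + 1)) ∧
      (∀ w, (f w).matches' = ⊤ ↔ w ∉ L) ∧ Loc (fun w => enc (f w)) ∧
      LinComp (fun w => enc (f w))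

theorem redNtm_of (hI : HistIff) : RedNtm := fun _ _ _ _ hL => red_of hI hL

/-- The reduction for unambiguous linear space. -/
theorem red_uspace (h : RedNtm) {L : Set (List Bool)} (hL : L ∈ USPACE fun n => (n : ℝ)) :
    ∃ (f : List Bool → RegularExpression Bool) (b : ℕ) (D : LD), D.Is (fun w => enc (f w)) ∧
      (∀ w, w.length ≤ (enc (f w)).length ∧ (enc (f w)).length ≤ b * (w.length + 1)) ∧
      (∀ w, (f w).matches' = ⊤ ↔ w ∉ L) ∧ Loc (fun w => enc (f w)) ∧
      LinComp (fun w => enc (f w)) := by
  obtain ⟨k, M, c, hM⟩ := hL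
  exact h L k M c fun w => ⟨(hM w).1, (hM w).2.1⟩

end Pool.Agent.Helper81.URE
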