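import Pool.Agent.Helper1.TE.Defs
import Pool.Agent.Helper92.RE.Hist

/-!
# Histories of a nondeterministic Turing machine as words

A row of a history is a word of `m = 2 o + 1` letters. The letter number `j` contains the work cell
number `j - o` of every tape, the input cell number `j`, marks for the heads in these cells, marks for
`j = 0` and for the end `n + 1` of the input, and a copy of the state, of all symbols which are read, and
of the action which leads to the next row (`none`: the next row has the same configuration). The first row
is the initial configuration, followed by an idle step.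
-/

namespace Pool.Agent.Helper81.URE

open Pool.Agent.Helper65.LinSpace (Dir inputSym inputMove)
open Pool.Agent.Helper1.TE (NTM)

variable {k : ℕ} (M : NTM k)

/-- An action. -/
abbrev Action : Type := M.State × Dir × (Fin k → M.Sym × Dir)

/-- The copy: the state, the symbols which are read, and the action (or `none`). -/
structure Copy where
  q : M.State
  a : Option Bool
  s : Fin k → M.Sym
  r : Option (Action M)

/-- A cell. -/
structure Cell where
  first : Bool
  last : Bool
  a : Option Bool
  inp : Bool
  s : Fin k → M.Sym
  hd : Fin k → Bool

/-- A letter of a history. -/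
structure Letter where
  c : Copy M
  d : Cell M

variable {M}

/-- The next state. -/
def Copy.nq (c : Copy M) : M.State := (c.r).elim c.q fun r => r.1

/-- The next cell, for the copy `c`, between the cells `x` and `z`. -/
def nextCell (c : Copy M) (x y z : Cell M) : Cell M :=
  match c.r with
  | none => y
  | some r =>
    { first := y.first
      last := y.last
      a := y.a
      inp := match r.2.1 with
        | .left => (y.first && y.inp) || (!z.first && z.inp)
        | .stay => y.inp
        | .right => (y.last && y.inp) || (!y.first && (!x.last && x.inp))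
      s := fun i => if y.hd i then (r.2.2 i).1 else y.s i
      hd := fun i => match (r.2.2 i).2 with
        | .left => !z.first && z.hd i
        | .stay => y.hd i
        | .right => !y.first && x.hd i }

/-- The action of a copy is possible. -/
def Copy.Ok (c : Copy M) : Prop := ∀ r, c.r = some r → r ∈ M.step c.q c.a c.s

/-- A bad quadruple. -/
def BadL (x y z y' : Letter M) : Prop :=
  (y.d.first = false ∧ x.c ≠ y.c) ∨ (y.d.inp = true ∧ y.d.a ≠ y.c.a) ∨
    (∃ i, y.d.hd i = true ∧ y.d.s i ≠ y.c.s i) ∨ y'.d ≠ nextCell y.c x.d y.d z.d ∨
    y'.c.q ≠ y.c.nq ∨ ¬y.c.Ok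

/-- An accepting letter. -/
def AccL (y : Letter M) : Prop := y.c.q ∈ M.accept

/-- The copy of a configuration and an action. -/
def copyOf (w : List Bool) (c : M.Cfg) (r : Option (Action M)) : Copy M :=
  ⟨c.state, inputSym w c.inp, fun i => c.tape i (c.head i), r⟩

/-- The cell number `j` of a configuration. -/
noncomputable def cellOf (w : List Bool) (o : ℕ) (c : M.Cfg) (j : ℕ) : Cell M where
  first := decide (j = 0)
  last := decide (j = w.length + 1)
  a := inputSym w j
  inp := decide (c.inp = j)
  s := fun i => c.tape i ((j : ℤ) - o)
  hd := fun i => decide (c.head i = (j : ℤ) - o)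

/-- The letter number `j` of a configuration and an action. -/
noncomputable def letterOf (w : List Bool) (o : ℕ) (c : M.Cfg) (r : Option (Action M)) (j : ℕ) :
    Letter M :=
  ⟨copyOf w c r, cellOf w o c j⟩

/-- The word of a configuration and an action. -/
noncomputable def cfgW (w : List Bool) (o : ℕ) (c : M.Cfg) (r : Option (Action M)) :
    List (Letter M) :=
  (List.range (2 * o + 1)).map (letterOf w o c r)

/-- The initial word: one additional letter, and the initial configuration with an idle step. -/
noncomputable def initW (M : NTM k) (w : List Bool) (o : ℕ) : List (Letter M) :=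
  letterOf w o M.init none 0 :: cfgW w o M.init none

/-- The words with the properties of a history. -/
def IsHistL (w : List Bool) (o : ℕ) (u : List (Letter M)) : Prop :=
  initW M w o <+: u ∧
    (∀ (p : ℕ) (x y z y' : Letter M), BadL x y z y' → ¬(u[p]? = some x ∧ u[p + 1]? = some y ∧
      u[p + 2]? = some z ∧ u[p + 1 + (2 * o + 1)]? = some y')) ∧
    ∃ (p : ℕ) (a : Letter M), AccL a ∧ u[p]? = some a ∧ p + 2 * (2 * o + 1) < u.length

/-- The effect of an action on a configuration. -/
def ap (w : List Bool) (c : M.Cfg) : Option (Action M) → M.Cfg
  | none => c
  | some a =>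
    { state := a.1
      inp := inputMove w a.2.1 c.inp
      tape := fun i => Function.update (c.tape i) (c.head i) (a.2.2 i).1
      head := fun i => c.head i + (a.2.2 i).2.toInt }

/-- The configurations for a sequence of actions. -/
def run (M : NTM k) (w : List Bool) (ρ : ℕ → Option (Action M)) : ℕ → M.Cfg
  | 0 => M.init
  | t + 1 => ap w (run M w ρ t) (ρ t)

/-- The heads of a configuration are within distance `o` of the origin. -/
def InR (o : ℕ) (c : M.Cfg) : Prop := ∀ i, |c.head i| ≤ (o : ℤ)

/-- The action is possible. -/
def Possible (w : List Bool) (c : M.Cfg) (r : Option (Action M)) : Prop :=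
  ∀ a, r = some a → a ∈ M.step c.state (inputSym w c.inp) fun i => c.tape i (c.head i)

theorem reach_ap {w : List Bool} {c : M.Cfg} {r : Option (Action M)} (hc : M.Reach w c)
    (hr : Possible w c r) : M.Reach w (ap w c r) := by
  rcases r with _ | a
  · exact hc
  · exact Relation.ReflTransGen.tail hc ⟨a, hr a rfl, rfl⟩

theorem reach_run {w : List Bool} {ρ : ℕ → Option (Action M)} (t : ℕ)
    (h : ∀ s < t, Possible w (run M w ρ s) (ρ s)) : M.Reach w (run M w ρ t) := by
  induction t with
  | zero => exact Relation.ReflTransGen.refl
  | succ t ih => exact reach_ap (ih fun s hs => h s (by omega)) (h t (by omega))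

/-- A sequence of actions for a reachable configuration. -/
theorem exists_run {w : List Bool} {c : M.Cfg} (hc : M.Reach w c) :
    ∃ (ρ : ℕ → Option (Action M)) (t : ℕ), ρ 0 = none ∧ (∀ s, Possible w (run M w ρ s) (ρ s)) ∧
      (∀ s, t ≤ s → ρ s = none) ∧ run M w ρ t = c := by
  induction hc with
  | refl =>
    exact ⟨fun _ => none, 0, rfl, fun s a h => by simp at h, fun s _ => rfl, rfl⟩
  | @tail c c' _ hn ih =>
    obtain ⟨ρ, t, h0, h1, h2, h3⟩ := ih
    obtain ⟨a, ha, rfl⟩ := hn
    have ht : run M w ρ (t + 1) = c := by
      show ap w (run M w ρ t) (ρ t) = c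
      rw [h2 t le_rfl, h3]
      rfl
    have e : ∀ s ≤ t + 1, run M w (fun s => if s = t + 1 then some a else ρ s) s = run M w ρ s := by
      intro s
      induction s with
      | zero => exact fun _ => rfl
      | succ s ih =>
        intro hs
        show ap w (run M w _ s) (if s = t + 1 then some a else ρ s) = ap w (run M w ρ s) (ρ s)
        rw [ih (by omega), if_neg (by omega)]
    refine ⟨fun s => if s = t + 1 then some a else ρ s, t + 2, ?_, fun s b hb => ?_,
      fun s hs => ?_, ?_⟩
    · show (if 0 = t + 1 then some a else ρ 0) = none
      rw [if_neg (by omega), h0]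
    · change (if s = t + 1 then some a else ρ s) = some b at hb
      by_cases hs : s = t + 1
      · rw [if_pos hs] at hb
        rw [hs, e _ le_rfl, ht, ← Option.some.inj hb]
        exact ha
      · rw [if_neg hs] at hb
        rcases Nat.lt_or_ge s (t + 1) with h | h
        · rw [e s h.le]
          exact h1 s b hb
        · rw [h2 s (by omega)] at hb
          simp at hb
    · show (if s = t + 1 then some a else ρ s) = none
      rw [if_neg (by omega), h2 s (by omega)]
    · show ap w (run M w _ (t + 1)) (if t + 1 = t + 1 then some a else ρ (t + 1)) = _
      rw [e _ le_rfl, ht, if_pos rfl]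
      rfl

end Pool.Agent.Helper81.URE
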